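import Mathlib
import Pool.Agent.W788.BK.Stm

set_option autoImplicit false

open scoped BigOperators Matrix
open MeasureTheory

namespace Pool.Agent.W475.BK

open Pool.Agent.W788.BK
open Pool.Agent.W788.MFP.Four (T e NN adj K ft e_comm e_add_left e_add e_zero e_neg e_neg_left
  e_normSq sum_e NN_pos)

variable {d L : ℕ} [NeZero L]

/-- the diagonal unitary -/
noncomputable def UU (z : T d L) : Matrix (T d L) (T d L) ℂ := Matrix.diagonal fun k => e k z

theorem UU_mul (z : T d L) : UU z * (UU z)ᴴ = 1 := by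
  unfold UU
  rw [Matrix.diagonal_conjTranspose, Matrix.diagonal_mul_diagonal]
  rw [← Matrix.diagonal_one]
  congr 1
  funext k
  exact e_normSq k z

theorem UU_mul' (z : T d L) : (UU z)ᴴ * UU z = 1 := by
  rw [mul_eq_one_comm]; exact UU_mul z

theorem UU_inv (z : T d L) : (UU z)⁻¹ = (UU z)ᴴ := Matrix.inv_eq_right_inv (UU_mul z)

theorem UUH_inv (z : T d L) : ((UU z)ᴴ)⁻¹ = UU z := Matrix.inv_eq_right_inv (UU_mul' z)

theorem conj_apply (z : T d L) (X : Matrix (T d L) (T d L) ℂ) (k p : T d L) :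
    (UU z * X * (UU z)ᴴ) k p = e (k - p) z * X k p := by
  unfold UU
  rw [Matrix.diagonal_conjTranspose, Matrix.mul_diagonal, Matrix.diagonal_mul]
  rw [sub_eq_add_neg, e_add_left, e_neg_left]
  show e k z * X k p * (starRingEnd ℂ) (e p z) = _
  ring

theorem XX_shift (E δ θ : ℝ) (V : T d L → ℝ) (z : T d L) :
    XX (D0 E δ) (AA (d := d) (L := L) E δ θ) (fun y => V (y - z)) =
      UU z * XX (D0 E δ) (AA (d := d) (L := L) E δ θ) V * (UU z)ᴴ := by
  ext k p
  rw [conj_apply]
  unfold XX
  rw [Matrix.add_apply, Matrix.add_apply, mul_add]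
  congr 1
  · unfold D0
    rcases eq_or_ne k p with h | h
    · subst h
      rw [sub_self]
      have : e (0 : T d L) z = 1 := by rw [e_comm, e_zero]
      rw [this, one_mul]
    · rw [Matrix.diagonal_apply_ne _ h, mul_zero]
  · rw [Matrix.sum_apply, Matrix.sum_apply, Finset.mul_sum]
    rw [← Equiv.sum_comp (Equiv.addRight z)]
    refine Finset.sum_congr rfl fun y _ => ?_
    have h0 : (Equiv.addRight z) y = y + z := rfl
    rw [h0, Matrix.smul_apply, Matrix.smul_apply, smul_eq_mul, smul_eq_mul]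
    show ((V (y + z - z) : ℝ) : ℂ) * _ = _
    rw [add_sub_cancel_right]
    unfold AA
    rw [Matrix.of_apply, Matrix.of_apply, e_add]
    ring

theorem RR_shift (E δ θ η : ℝ) (V : T d L → ℝ) (z : T d L) (k p : T d L) :
    RR (D0 E δ) (AA (d := d) (L := L) E δ θ) η (fun y => V (y - z)) k p =
      e (k - p) z * RR (D0 E δ) (AA (d := d) (L := L) E δ θ) η V k p := by
  rw [← conj_apply]
  unfold RR
  rw [XX_shift]
  have h1 : UU z * XX (D0 E δ) (AA (d := d) (L := L) E δ θ) V * (UU z)ᴴ -
      ((η : ℂ) * Complex.I) • (1 : Matrix (T d L) (T d L) ℂ) =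
      UU z * (XX (D0 E δ) (AA (d := d) (L := L) E δ θ) V -
        ((η : ℂ) * Complex.I) • (1 : Matrix (T d L) (T d L) ℂ)) * (UU z)ᴴ := by
    rw [mul_sub, sub_mul, mul_smul_comm, smul_mul_assoc, mul_one, UU_mul]
  rw [h1, Matrix.mul_inv_rev, Matrix.mul_inv_rev, UU_inv, UUH_inv, mul_assoc]

theorem inv : S_INV := by
  intro d L _ E δ θ η μ _ _ _ k p hkp
  have hinv : ∀ z : T d L, MM (D0 E δ) (AA (d := d) (L := L) E δ θ) η μ k p =
      e (k - p) z * MM (D0 E δ) (AA (d := d) (L := L) E δ θ) η μ k p := by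
    intro z
    have h1 := (measurePreserving_piCongrLeft (fun _ : T d L => μ) (Equiv.addRight z)).integral_comp'
      (fun V : T d L → ℝ => RR (D0 E δ) (AA (d := d) (L := L) E δ θ) η V k p)
    have h2 : ∀ V : T d L → ℝ, (MeasurableEquiv.piCongrLeft (fun _ : T d L => ℝ)
        (Equiv.addRight z)) V = fun y => V (y - z) := by
      intro V
      funext y
      have h3 := Equiv.piCongrLeft_apply_apply (fun _ : T d L => ℝ) (Equiv.addRight z) V (y - z)
      have h4 : (Equiv.addRight z) (y - z) = y := sub_add_cancel y z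
      rw [h4] at h3
      exact h3
    simp only [h2, RR_shift] at h1
    rw [integral_const_mul] at h1
    unfold MM
    rw [Matrix.of_apply]
    exact h1.symm
  have hsum : ∑ z : T d L, MM (D0 E δ) (AA (d := d) (L := L) E δ θ) η μ k p =
      (∑ z : T d L, e z (k - p)) * MM (D0 E δ) (AA (d := d) (L := L) E δ θ) η μ k p := by
    rw [Finset.sum_mul]
    refine Finset.sum_congr rfl fun z _ => ?_
    rw [e_comm z]
    exact hinv z
  rw [sum_e, if_neg (sub_ne_zero.2 hkp), zero_mul, Finset.sum_const, nsmul_eq_mul] at hsum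
  rcases mul_eq_zero.1 hsum with h | h
  · exfalso
    have : (Finset.univ : Finset (T d L)).card ≠ 0 := by
      rw [Finset.card_univ]; exact Fintype.card_ne_zero
    exact this (by exact_mod_cast h)
  · exact h

end Pool.Agent.W475.BK
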