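import Mathlib
import Pool.Agent.W788.BK.Stm

set_option autoImplicit false

open scoped BigOperators Matrix

namespace Pool.Agent.W475.BK

open Pool.Agent.W788.BK
open Pool.Agent.W788.MFP.Four (T e NN adj K ft)

theorem card_interval {L : ℕ} (f : ZMod L → ℤ) (hf : Function.Injective f)
    (s : Finset (ZMod L)) (x l : ℝ) (hl : 0 ≤ l)
    (h : ∀ q ∈ s, x ≤ (f q : ℝ) ∧ (f q : ℝ) ≤ x + l) : (s.card : ℝ) ≤ l + 1 := by
  have h1 : s.card ≤ (Finset.Icc ⌈x⌉ ⌊x + l⌋).card := by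
    refine Finset.card_le_card_of_injOn f (fun q hq => ?_) (hf.injOn)
    rw [Finset.mem_coe, Finset.mem_Icc]
    exact ⟨Int.ceil_le.2 (h q hq).1, Int.le_floor.2 (h q hq).2⟩
  rw [Int.card_Icc] at h1
  have h2 : (s.card : ℝ) ≤ ((⌊x + l⌋ + 1 - ⌈x⌉).toNat : ℝ) := by exact_mod_cast h1
  refine h2.trans ?_
  have h3 : (((⌊x + l⌋ + 1 - ⌈x⌉).toNat : ℤ) : ℝ) = ((max (⌊x + l⌋ + 1 - ⌈x⌉) 0 : ℤ) : ℝ) := by
    rw [Int.toNat_eq_max]
  have h4 : ((⌊x + l⌋ + 1 - ⌈x⌉).toNat : ℝ) = ((max (⌊x + l⌋ + 1 - ⌈x⌉) 0 : ℤ) : ℝ) := by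
    rw [← h3]; norm_cast
  rw [h4]
  push_cast
  apply max_le
  · have := Int.floor_le (x + l)
    have := Int.le_ceil x
    linarith
  · linarith

theorem cr_eq {L : ℕ} [NeZero L] (j : ℤ) :
    cr ((j : ZMod L)) = Real.cos (2 * (Real.pi * j / L)) := by
  unfold cr
  rw [ZMod.stdAddChar_coe]
  have : (2 * Real.pi * Complex.I * j / L : ℂ) =
      ((2 * (Real.pi * j / L) : ℝ) : ℂ) * Complex.I := by
    push_cast; ring
  rw [this, Complex.exp_ofReal_mul_I_re]

theorem jordan (x : ℝ) (hx : |x| ≤ 1 / 2) : 2 * |x| ≤ |Real.sin (Real.pi * x)| := by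
  have h1 : |Real.sin (Real.pi * x)| = Real.sin (Real.pi * |x|) := by
    rcases le_or_gt 0 x with h | h
    · rw [abs_of_nonneg h, abs_of_nonneg]
      apply Real.sin_nonneg_of_nonneg_of_le_pi (by positivity)
      rw [abs_of_nonneg h] at hx
      nlinarith [Real.pi_pos]
    · rw [abs_of_neg h, mul_neg, Real.sin_neg, abs_of_nonpos]
      have : 0 ≤ Real.sin (Real.pi * (-x)) := by
        apply Real.sin_nonneg_of_nonneg_of_le_pi
        · nlinarith [Real.pi_pos]
        · rw [abs_of_neg h] at hx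
          nlinarith [Real.pi_pos]
      rw [mul_neg, Real.sin_neg] at this
      linarith
  rw [h1]
  have h2 := Real.mul_le_sin (x := Real.pi * |x|) (by positivity)
    (by nlinarith [Real.pi_pos])
  have h3 : 2 / Real.pi * (Real.pi * |x|) = 2 * |x| := by
    field_simp
  rwa [h3] at h2

theorem card_a {L : ℕ} [NeZero L] (θ : ℝ) (h0 : 0 ≤ θ) (hL : 1 ≤ θ * L)
    (s : Finset (ZMod L)) (h : ∀ q ∈ s, (1 - cr q) / 2 ≤ θ ^ 2) : (s.card : ℝ) ≤ 2 * θ * L := by
  have hLp : (0 : ℝ) < L := by exact_mod_cast Nat.pos_of_ne_zero (NeZero.ne L)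
  have h1 := card_interval (fun q : ZMod L => q.valMinAbs) (ZMod.injective_valMinAbs) s
    (-(θ * L / 2)) (θ * L) (by positivity) (fun q hq => ?_)
  · linarith
  · have h2 := h q hq
    have h3 : cr q = Real.cos (2 * (Real.pi * q.valMinAbs / L)) := by
      rw [← cr_eq, ZMod.coe_valMinAbs]
    have h4 : (1 - cr q) / 2 = Real.sin (Real.pi * ((q.valMinAbs : ℝ) / L)) ^ 2 := by
      rw [h3, Real.cos_two_mul, Real.sin_sq]
      rw [mul_div_assoc]; ring
    rw [h4] at h2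
    have h5 : |Real.sin (Real.pi * ((q.valMinAbs : ℝ) / L))| ≤ θ := abs_le_of_sq_le_sq h2 h0
    have h6 : |(q.valMinAbs : ℝ) / L| ≤ 1 / 2 := by
      rw [abs_div, abs_of_pos hLp, div_le_iff₀ hLp]
      have h7 := ZMod.valMinAbs_mem_Ioc q
      rw [Set.mem_Ioc] at h7
      rw [abs_le]
      constructor
      · have h8 : (-(L : ℤ) : ℝ) < ((q.valMinAbs * 2 : ℤ) : ℝ) := by exact_mod_cast h7.1
        push_cast at h8
        linarith
      · have h8 : ((q.valMinAbs * 2 : ℤ) : ℝ) ≤ ((L : ℤ) : ℝ) := by exact_mod_cast h7.2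
        push_cast at h8
        linarith
    have h9 := (jordan _ h6).trans h5
    rw [abs_div, abs_of_pos hLp] at h9
    have h10 : |(q.valMinAbs : ℝ)| ≤ θ * L / 2 := by
      rw [← mul_div_assoc, div_le_iff₀ hLp] at h9
      linarith
    rw [abs_le] at h10
    constructor <;> linarith [h10.1, h10.2]

theorem card_b {L : ℕ} [NeZero L] (θ : ℝ) (h0 : 0 ≤ θ) (hL : 1 ≤ θ * L)
    (s : Finset (ZMod L)) (h : ∀ q ∈ s, (1 + cr q) / 2 ≤ θ ^ 2) : (s.card : ℝ) ≤ 2 * θ * L := by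
  have hLp : (0 : ℝ) < L := by exact_mod_cast Nat.pos_of_ne_zero (NeZero.ne L)
  have h1 := card_interval (fun q : ZMod L => (q.val : ℤ))
    (fun a b hab => ZMod.val_injective L (by
      have h' : ((a.val : ℕ) : ℤ) = b.val := hab
      exact_mod_cast h')) s
    ((L : ℝ) / 2 - (θ * L / 2)) (θ * L) (by positivity) (fun q hq => ?_)
  · linarith
  · have h2 := h q hq
    have hq0 : (((q.val : ℤ)) : ZMod L) = q := by
      push_cast; exact ZMod.natCast_zmod_val q
    have h3 : cr q = Real.cos (2 * (Real.pi * (q.val : ℤ) / L)) := by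
      rw [← cr_eq, hq0]
    have h4 : (1 + cr q) / 2 = Real.sin (Real.pi * (((q.val : ℤ) : ℝ) / L - 1 / 2)) ^ 2 := by
      rw [h3, Real.cos_two_mul]
      have h5 : Real.pi * (((q.val : ℤ) : ℝ) / L - 1 / 2) =
          Real.pi * ((q.val : ℤ) : ℝ) / L - Real.pi / 2 := by ring
      rw [h5, Real.sin_sub_pi_div_two]; ring
    rw [h4] at h2
    have h5 : |Real.sin (Real.pi * (((q.val : ℤ) : ℝ) / L - 1 / 2))| ≤ θ :=
      abs_le_of_sq_le_sq h2 h0
    have h7 : ((q.val : ℤ) : ℝ) / L ≤ 1 := by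
      rw [div_le_one hLp]
      have := (ZMod.val_lt q).le
      exact_mod_cast this
    have h8 : 0 ≤ ((q.val : ℤ) : ℝ) / L := by
      apply div_nonneg _ hLp.le
      exact_mod_cast Nat.zero_le _
    have h6 : |((q.val : ℤ) : ℝ) / L - 1 / 2| ≤ 1 / 2 := by
      rw [abs_le]; constructor <;> linarith
    have h9 := (jordan _ h6).trans h5
    have h10 : |((q.val : ℤ) : ℝ) / L - 1 / 2| ≤ θ / 2 := by linarith
    rw [abs_le] at h10
    have h11 : ((q.val : ℤ) : ℝ) = (((q.val : ℤ) : ℝ) / L) * L := by field_simp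
    constructor
    · rw [h11]; nlinarith [h10.1]
    · rw [h11]; nlinarith [h10.2]

theorem low : S_LOW := by
  classical
  intro d L _ θ h0 _ hL
  let a : Finset (ZMod L) := Finset.univ.filter fun q => (1 - cr q) / 2 ≤ θ ^ 2
  let b : Finset (ZMod L) := Finset.univ.filter fun q => (1 + cr q) / 2 ≤ θ ^ 2
  let A : Finset (T d L) := Fintype.piFinset fun _ => a
  let B : Finset (T d L) := Fintype.piFinset fun _ => b
  have hA : ∀ Q : T d L, Q ∈ A ↔ ∀ i, (1 - cr (Q i)) / 2 ≤ θ ^ 2 := by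
    intro Q
    simp only [A, a, Fintype.mem_piFinset, Finset.mem_filter, Finset.mem_univ, true_and]
  have hB : ∀ Q : T d L, Q ∈ B ↔ ∀ i, (1 + cr (Q i)) / 2 ≤ θ ^ 2 := by
    intro Q
    simp only [B, b, Fintype.mem_piFinset, Finset.mem_filter, Finset.mem_univ, true_and]
  have hcA : (A.card : ℝ) ≤ (2 * θ * L) ^ d := by
    have : A.card = a.card ^ d := by
      simp only [A, Fintype.card_piFinset, Finset.prod_const, Finset.card_univ, Fintype.card_fin]
    rw [this]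
    push_cast
    refine pow_le_pow_left₀ (by positivity) ?_ _
    exact card_a θ h0 hL a fun q hq => (Finset.mem_filter.1 hq).2
  have hcB : (B.card : ℝ) ≤ (2 * θ * L) ^ d := by
    have : B.card = b.card ^ d := by
      simp only [B, Fintype.card_piFinset, Finset.prod_const, Finset.card_univ, Fintype.card_fin]
    rw [this]
    push_cast
    refine pow_le_pow_left₀ (by positivity) ?_ _
    exact card_b θ h0 hL b fun q hq => (Finset.mem_filter.1 hq).2
  have hpt : ∀ Q : T d L, 1 - hi θ Q ≤ (if Q ∈ A then (1 : ℝ) else 0) + (if Q ∈ B then 1 else 0) := by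
    intro Q
    unfold hi
    by_cases hQ : Low θ Q
    · rw [if_pos hQ, sub_zero]
      rcases hQ with hQ | hQ
      · rw [if_pos ((hA Q).2 hQ)]
        have : (0 : ℝ) ≤ if Q ∈ B then (1 : ℝ) else 0 := by split_ifs <;> norm_num
        linarith
      · rw [if_pos ((hB Q).2 hQ)]
        have : (0 : ℝ) ≤ if Q ∈ A then (1 : ℝ) else 0 := by split_ifs <;> norm_num
        linarith
    · rw [if_neg hQ, sub_self]
      have h1 : (0 : ℝ) ≤ if Q ∈ A then (1 : ℝ) else 0 := by split_ifs <;> norm_num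
      have h2 : (0 : ℝ) ≤ if Q ∈ B then (1 : ℝ) else 0 := by split_ifs <;> norm_num
      linarith
  have hs1 : ∑ Q : T d L, (if Q ∈ A then (1 : ℝ) else 0) = A.card := by
    rw [Finset.sum_ite_mem, Finset.univ_inter, Finset.sum_const, nsmul_eq_mul, mul_one]
  have hs2 : ∑ Q : T d L, (if Q ∈ B then (1 : ℝ) else 0) = B.card := by
    rw [Finset.sum_ite_mem, Finset.univ_inter, Finset.sum_const, nsmul_eq_mul, mul_one]
  calc ∑ Q : T d L, (1 - hi θ Q) ≤
      ∑ Q : T d L, ((if Q ∈ A then (1 : ℝ) else 0) + (if Q ∈ B then 1 else 0)) :=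
        Finset.sum_le_sum fun Q _ => hpt Q
    _ = A.card + B.card := by rw [Finset.sum_add_distrib, hs1, hs2]
    _ ≤ (2 * θ * L) ^ d + (2 * θ * L) ^ d := add_le_add hcA hcB
    _ = 2 * (2 * θ) ^ d * NN d L := by
        unfold Pool.Agent.W788.MFP.Four.NN
        rw [mul_pow (2 * θ)]; ring

end Pool.Agent.W475.BK
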